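import Mathlib

/-!
# Expansions `∑_{k<6} q k t^(p-k) + o(1)` at infinity: scalar part
-/

set_option autoImplicit false

open Filter Topology Finset Asymptotics

namespace Pool.Agent.RC.REP

/-- `Q t = ∑_{k<6} q k t^(p-k) + o(1)` -/
def Ex (p : ℝ) (Q : ℝ → ℝ) : Prop :=
  ∃ q : ℕ → ℝ, Tendsto (fun t : ℝ => Q t - ∑ k ∈ Finset.range 6, q k * t ^ (p - k)) atTop (𝓝 0)

theorem Ex.add {p : ℝ} {P Q : ℝ → ℝ} (hP : Ex p P) (hQ : Ex p Q) : Ex p (fun t => P t + Q t) := by
  obtain ⟨a, ha⟩ := hP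
  obtain ⟨b, hb⟩ := hQ
  refine ⟨fun k => a k + b k, ?_⟩
  have := ha.add hb
  rw [add_zero] at this
  refine this.congr fun t => ?_
  rw [Finset.sum_congr rfl fun k _ => add_mul (a k) (b k) (t ^ (p - k)), Finset.sum_add_distrib]
  ring

theorem Ex.const_mul {p : ℝ} {P : ℝ → ℝ} (c : ℝ) (hP : Ex p P) : Ex p (fun t => c * P t) := by
  obtain ⟨a, ha⟩ := hP
  refine ⟨fun k => c * a k, ?_⟩
  have := ha.const_mul c
  rw [mul_zero] at this
  refine this.congr fun t => ?_
  rw [Finset.sum_congr rfl fun k _ => mul_assoc c (a k) (t ^ (p - k)), ← Finset.mul_sum]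
  ring

theorem Ex.zero (p : ℝ) : Ex p (fun _ => 0) := ⟨fun _ => 0, by simp⟩

theorem Ex.sub {p : ℝ} {P Q : ℝ → ℝ} (hP : Ex p P) (hQ : Ex p Q) : Ex p (fun t => P t - Q t) := by
  have := hP.add (hQ.const_mul (-1))
  refine Eq.mp ?_ this
  congr 1
  funext t
  ring

theorem Ex.sum {p : ℝ} {J : Type} (s : Finset J) (Q : J → ℝ → ℝ) (h : ∀ j ∈ s, Ex p (Q j)) :
    Ex p (fun t => ∑ j ∈ s, Q j t) := by
  classical
  induction s using Finset.induction_on with
  | empty => simpa using Ex.zero p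
  | insert a s ha ih =>
    have h1 := (h a (Finset.mem_insert_self _ _)).add
      (ih fun j hj => h j (Finset.mem_insert_of_mem hj))
    refine Eq.mp ?_ h1
    congr 1
    funext t
    rw [Finset.sum_insert ha]

theorem Ex.congr' {p : ℝ} {P Q : ℝ → ℝ} (hP : Ex p P) (h : ∀ᶠ t in atTop, P t = Q t) : Ex p Q := by
  obtain ⟨a, ha⟩ := hP
  refine ⟨a, ha.congr' ?_⟩
  filter_upwards [h] with t ht
  rw [ht]

/-- Taylor polynomial of `(1+y)^q` -/
theorem ex_taylor (q : ℝ) (n : ℕ) : ∃ c : ℕ → ℝ,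
    (fun y : ℝ => (1 + y) ^ q - ∑ k ∈ Finset.range n, c k * y ^ k) =O[𝓝 0] fun y => y ^ n := by
  have h := (Real.one_add_rpow_hasFPowerSeriesAt_zero (a := q)).isBigO_sub_partialSum_pow n
  refine ⟨fun k => (binomialSeries ℝ q).coeff k, ?_⟩
  refine (h.congr ?_ ?_).trans ?_ (g := fun y : ℝ => ‖y‖ ^ n)
  · intro y
    rw [zero_add]
    congr 1
    unfold FormalMultilinearSeries.partialSum
    refine Finset.sum_congr rfl fun k _ => ?_
    rw [FormalMultilinearSeries.apply_eq_pow_smul_coeff, smul_eq_mul, mul_comm]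
  · intro y
    rfl
  · refine IsBigO.of_bound 1 (Eventually.of_forall fun y => ?_)
    simp

theorem Ex_rpow {p : ℝ} (h6 : p < 6) (j : ℕ) (hj : j ≤ 6) (l : ℝ) :
    Ex p (fun t => (t + l) ^ (p - j)) := by
  obtain ⟨n, hn⟩ := Nat.exists_eq_add_of_le hj
  obtain ⟨c, hc⟩ := ex_taylor (p - j) n
  refine ⟨fun k => if k < j then 0 else c (k - j) * l ^ (k - j), ?_⟩
  have hlt : Tendsto (fun t : ℝ => l / t) atTop (𝓝 0) := tendsto_const_nhds.div_atTop tendsto_id
  obtain ⟨K, hK⟩ := (hc.comp_tendsto hlt).bound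
  have hlim : Tendsto (fun t : ℝ => (K * |l| ^ n) * t ^ (p - 6)) atTop (𝓝 0) := by
    have h1 : Tendsto (fun t : ℝ => t ^ (p - 6)) atTop (𝓝 0) := by
      have := tendsto_rpow_neg_atTop (y := 6 - p) (by linarith)
      simpa using this
    simpa using h1.const_mul (K * |l| ^ n)
  refine squeeze_zero_norm' ?_ hlim
  filter_upwards [hK, eventually_gt_atTop (|l|), eventually_gt_atTop (0 : ℝ)] with t ht htl ht0
  have hle : 0 ≤ 1 + l / t := by
    have : |l / t| ≤ 1 := by
      rw [abs_div, abs_of_pos ht0, div_le_one ht0]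
      exact htl.le
    linarith [(abs_le.1 this).1]
  have e0 : (t + l) ^ (p - j) = t ^ (p - j) * (1 + l / t) ^ (p - j) := by
    rw [← Real.mul_rpow ht0.le hle]
    congr 1
    field_simp
  have e1 : ∑ k ∈ Finset.range 6, (if k < j then 0 else c (k - j) * l ^ (k - j)) * t ^ (p - k) =
      t ^ (p - j) * ∑ k ∈ Finset.range n, c k * (l / t) ^ k := by
    rw [hn, Finset.sum_range_add]
    have z : ∑ k ∈ Finset.range j, (if k < j then 0 else c (k - j) * l ^ (k - j)) *
        t ^ (p - (k : ℝ)) = 0 := by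
      refine Finset.sum_eq_zero fun k hk => ?_
      rw [if_pos (Finset.mem_range.1 hk), zero_mul]
    rw [z, zero_add, Finset.mul_sum]
    refine Finset.sum_congr rfl fun k _ => ?_
    rw [if_neg (by omega), Nat.add_sub_cancel_left]
    have : t ^ (p - ((j + k : ℕ) : ℝ)) = t ^ (p - (j : ℝ)) * (t ^ k)⁻¹ := by
      rw [← Real.rpow_natCast t k, ← Real.rpow_neg ht0.le, ← Real.rpow_add ht0]
      congr 1
      push_cast
      ring
    rw [this, div_pow]
    ring
  rw [e0, e1, ← mul_sub, norm_mul]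
  simp only [Function.comp] at ht
  have e2 : ‖t ^ (p - (j : ℝ))‖ = t ^ (p - (j : ℝ)) := by
    rw [Real.norm_eq_abs, abs_of_pos (Real.rpow_pos_of_pos ht0 _)]
  rw [e2]
  calc t ^ (p - (j : ℝ)) * ‖(1 + l / t) ^ (p - (j : ℝ)) - ∑ k ∈ Finset.range n, c k * (l / t) ^ k‖
      ≤ t ^ (p - (j : ℝ)) * (K * ‖(l / t) ^ n‖) :=
        mul_le_mul_of_nonneg_left ht (Real.rpow_pos_of_pos ht0 _).le
    _ = (K * |l| ^ n) * t ^ (p - 6) := by
      rw [norm_pow, Real.norm_eq_abs, abs_div, abs_of_pos ht0, div_pow]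
      have : t ^ (p - 6) = t ^ (p - (j : ℝ)) * (t ^ n)⁻¹ := by
        rw [← Real.rpow_natCast t n, ← Real.rpow_neg ht0.le, ← Real.rpow_add ht0]
        congr 1
        have : (6 : ℝ) = (j : ℝ) + (n : ℝ) := by exact_mod_cast hn
        rw [this]
        ring
      rw [this]
      ring

/-- a finite sum of positive powers with a finite limit vanishes -/
theorem ex_lim_zero (E : Finset ℝ) (hE : ∀ e ∈ E, 0 < e) (c : ℝ → ℝ) {L : ℝ}
    (h : Tendsto (fun t : ℝ => ∑ e ∈ E, c e * t ^ e) atTop (𝓝 L)) : L = 0 := by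
  induction E using Finset.induction_on_max with
  | empty =>
    simp only [Finset.sum_empty] at h
    exact (tendsto_nhds_unique h tendsto_const_nhds)
  | insert a s has ih =>
    have hna : a ∉ s := fun hh => lt_irrefl _ (has a hh)
    have ha0 : 0 < a := hE a (Finset.mem_insert_self _ _)
    have key : c a = 0 := by
      have h1 : Tendsto (fun t : ℝ => t ^ (-a) * ∑ e ∈ insert a s, c e * t ^ e) atTop (𝓝 0) := by
        have := (tendsto_rpow_neg_atTop ha0).mul h
        rwa [zero_mul] at this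
      have h2 : Tendsto (fun t : ℝ => c a + ∑ e ∈ s, c e * t ^ (-(a - e))) atTop
          (𝓝 (c a + ∑ e ∈ s, c e * 0)) := by
        refine tendsto_const_nhds.add (tendsto_finsetSum _ fun e he => ?_)
        exact (tendsto_rpow_neg_atTop (sub_pos.2 (has e he))).const_mul _
      have h3 : (fun t : ℝ => t ^ (-a) * ∑ e ∈ insert a s, c e * t ^ e) =ᶠ[atTop]
          fun t : ℝ => c a + ∑ e ∈ s, c e * t ^ (-(a - e)) := by
        filter_upwards [eventually_gt_atTop (0 : ℝ)] with t ht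
        rw [Finset.sum_insert hna, mul_add, Finset.mul_sum]
        congr 1
        · rw [mul_comm, mul_assoc, ← Real.rpow_add ht, add_neg_cancel, Real.rpow_zero, mul_one]
        · refine Finset.sum_congr rfl fun e _ => ?_
          rw [show -(a - e) = -a + e by ring, Real.rpow_add ht]
          ring
      have := tendsto_nhds_unique (h2.congr' h3.symm) h1
      simpa using this
    apply ih (fun e he => hE e (Finset.mem_insert_of_mem he))
    refine h.congr fun t => ?_
    rw [Finset.sum_insert hna, key, zero_mul, zero_add]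

theorem Ex.lim {p : ℝ} (h5 : 5 < p) {Q : ℝ → ℝ} {L : ℝ} (hQ : Ex p Q)
    (hL : Tendsto Q atTop (𝓝 L)) : L = 0 := by
  obtain ⟨q, hq⟩ := hQ
  have h1 : Tendsto (fun t : ℝ => ∑ k ∈ Finset.range 6, q k * t ^ (p - k)) atTop (𝓝 L) := by
    have := hL.sub hq
    rw [sub_zero] at this
    refine this.congr fun t => ?_
    ring
  have hinj : Set.InjOn (fun k : ℕ => p - (k : ℝ)) (Finset.range 6 : Set ℕ) := by
    intro x _ y _ hxy
    have : (x : ℝ) = (y : ℝ) := by
      have : p - (x : ℝ) = p - (y : ℝ) := hxy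
      linarith
    exact_mod_cast this
  apply ex_lim_zero ((Finset.range 6).image fun k : ℕ => p - (k : ℝ)) ?_
    (fun e => q ⌊p - e⌋₊) (L := L)
  · refine h1.congr fun t => ?_
    rw [Finset.sum_image hinj]
    refine Finset.sum_congr rfl fun k _ => ?_
    rw [sub_sub_cancel, Nat.floor_natCast]
  · intro e he
    obtain ⟨k, hk, rfl⟩ := Finset.mem_image.1 he
    have : k ≤ 5 := by
      have := Finset.mem_range.1 hk
      omega
    have : (k : ℝ) ≤ 5 := by exact_mod_cast this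
    linarith

end Pool.Agent.RC.REP
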