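import Pool.Agent.Lib_helper11.GC45.R5
import Pool.Agent.Lib_helper26.G56.Ex

/-!
# Expansions in the shift `t` of `G` and `m1`
-/

open scoped BigOperators ComplexOrder Kronecker MatrixOrder Topology ENNReal
open MeasureTheory Set Matrix Filter

namespace Pool.Agent.RC.REP

open S24 SER DEC INE LAY

variable {ι : Type} [Fintype ι] [DecidableEq ι]

theorem trF_add_real (f : ℝ → ℝ) {M : Matrix ι ι ℂ} (hM : M.IsHermitian) (c : ℝ) :
    trF f (M + (c : ℂ) • (1 : Matrix ι ι ℂ)) = ∑ i, f (hM.eigenvalues i + c) := by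
  obtain ⟨U, h1, h2, h3⟩ := exists_diag_eig hM
  have e : M + (c : ℂ) • (1 : Matrix ι ι ℂ) =
      U * Matrix.diagonal (fun i => ((hM.eigenvalues i + c : ℝ) : ℂ)) * Uᴴ := by
    have e1 : Matrix.diagonal (fun i => ((hM.eigenvalues i + c : ℝ) : ℂ)) =
        Matrix.diagonal (fun i => (hM.eigenvalues i : ℂ)) + (c : ℂ) • (1 : Matrix ι ι ℂ) := by
      ext i j
      by_cases hij : i = j
      · subst hij; simp
      · simp [hij]
    rw [e1, ← h3, Matrix.mul_add, Matrix.add_mul, Matrix.mul_smul, Matrix.smul_mul, mul_one, h1]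
    congr 1
    calc M = (U * Uᴴ) * M * (U * Uᴴ) := by rw [h1]; simp
      _ = _ := by noncomm_ring
  rw [e, TRF.trF_conj f h2 _]

theorem dg_shift (a : ι → ℝ) (t : ℝ) :
    dg (fun i => a i + t) = dg a + (t : ℂ) • (1 : Matrix ι ι ℂ) := by
  unfold dg
  ext i j
  by_cases hij : i = j
  · subst hij; simp
  · simp [hij]

theorem Ex_trF {p : ℝ} (h6 : p < 6) {M : Matrix ι ι ℂ} (hM : M.IsHermitian) :
    Ex p (fun t => trF (fun x => x ^ p) (M + (t : ℂ) • (1 : Matrix ι ι ℂ))) := by
  have h : Ex p (fun t => ∑ i, (t + hM.eigenvalues i) ^ p) := by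
    apply Ex.sum
    intro i _
    have := Ex_rpow h6 0 (by norm_num) (hM.eigenvalues i)
    simpa using this
  refine Eq.mp ?_ h
  congr 1
  funext t
  rw [trF_add_real _ hM t]
  refine Finset.sum_congr rfl fun i _ => ?_
  rw [add_comm]

theorem Ex_G {p : ℝ} (_h5 : 5 < p) (h6 : p < 6) (a : ι → ℝ) (D : Matrix ι ι ℂ)
    (h : IsPair (dg a) D) : Ex p (fun t => G p (dg fun i => a i + t) D) := by
  have hA : (dg a).IsHermitian := h.pos.isHermitian
  have hD : D.IsHermitian := isHermitian_of_pair h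
  have h1 := Ex_trF h6 (hA.add hD)
  have h2 := Ex_trF h6 (hA.sub hD)
  have h3 := Ex_trF h6 hA
  have := ((h1.add h2).const_mul (1 / 2)).sub h3
  refine Eq.mp ?_ this
  congr 1
  funext t
  unfold G
  rw [dg_shift, show dg a + (t : ℂ) • (1 : Matrix ι ι ℂ) + D = dg a + D + (t : ℂ) • 1 by abel,
    show dg a + (t : ℂ) • (1 : Matrix ι ι ℂ) - D = dg a - D + (t : ℂ) • 1 by abel]
  ring

theorem Ex_hk {p : ℝ} (h5 : 5 < p) (h6 : p < 6) {x y : ℝ} (hx : 0 < x) (hy : 0 < y) :
    Ex p (fun t => hk p (x + t) (y + t)) := by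
  rcases eq_or_ne x y with hxy | hxy
  · subst hxy
    have := Ex_rpow h6 2 (by norm_num) x
    refine this.congr' (Eventually.of_forall fun t => ?_)
    rw [B1.hk_self]
    push_cast
    rw [add_comm]
  · wlog hlt : x < y generalizing x y with H
    · have := H hy hx hxy.symm (lt_of_le_of_ne (not_lt.1 hlt) hxy.symm)
      refine this.congr' (Eventually.of_forall fun t => ?_)
      exact B1.hk_comm _ _ _
    · have h1 := Ex_rpow h6 1 (by norm_num) y
      have h2 := Ex_rpow h6 1 (by norm_num) x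
      have := (h1.sub h2).const_mul (1 / ((p - 1) * (y - x)))
      refine this.congr' (Eventually.of_forall fun t => ?_)
      rw [B1.hk_eq (by linarith) (show x + t < y + t by linarith)]
      push_cast
      rw [show y + t - (x + t) = y - x by ring, add_comm y t, add_comm x t]
      ring

theorem Ex_m1 {p : ℝ} (h5 : 5 < p) (h6 : p < 6) (a : ι → ℝ) (D : Matrix ι ι ℂ)
    (ha : ∀ i, 0 < a i) : Ex p (fun t => m1 p (fun i => a i + t) D) := by
  unfold m1
  apply Ex.sum
  intro i _
  apply Ex.sum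
  intro j _
  exact (Ex_hk h5 h6 (ha i) (ha j)).const_mul _

end Pool.Agent.RC.REP
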